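import Mathlib
import Pool.Agent.H15.G.R_seed8.W609.CR.Stm

/-!
# Project CR, task GEN (helper797): the quadratic transformation at generic points
-/

set_option autoImplicit false

namespace Pool.Agent.W797.CR

open MvPolynomial
open Pool.Agent.W609.CR

/-- the determinant of three points -/
def D3 {R : Type} [CommRing R] (p q r : Fin 2 → R) : R :=
  p 0 * (q 1 - r 1) - q 0 * (p 1 - r 1) + r 0 * (p 1 - q 1)

theorem map_D3 {R S : Type} [CommRing R] [CommRing S] (f : R →+* S) (p q r : Fin 2 → R) :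
    f (D3 p q r) = D3 (fun l => f (p l)) (fun l => f (q l)) (fun l => f (r l)) := by
  simp only [D3, map_add, map_sub, map_mul]

theorem det_mat3 {K : Type} [Field K] {s : ℕ} (P : Fin s → Fin 2 → K) (i : Fin 3 → Fin s) :
    (mat3 P i).det = D3 (P (i 0)) (P (i 1)) (P (i 2)) := by
  rw [Matrix.det_fin_three]
  simp only [mat3, aff, D3, Matrix.of_apply, Matrix.cons_val_zero, Matrix.cons_val_one, Matrix.cons_val]
  ring

/-- solution of the linear system -/
theorem inv_mulVec {K : Type} [Field K] {s : ℕ} (P : Fin s → Fin 2 → K) (i : Fin 3 → Fin s)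
    (h : D3 (P (i 0)) (P (i 1)) (P (i 2)) ≠ 0) (p : Fin 2 → K) :
    (mat3 P i)⁻¹.mulVec (aff p) =
      ![D3 p (P (i 1)) (P (i 2)) / D3 (P (i 0)) (P (i 1)) (P (i 2)),
        D3 (P (i 0)) p (P (i 2)) / D3 (P (i 0)) (P (i 1)) (P (i 2)),
        D3 (P (i 0)) (P (i 1)) p / D3 (P (i 0)) (P (i 1)) (P (i 2))] := by
  set u : Fin 3 → K := ![D3 p (P (i 1)) (P (i 2)) / D3 (P (i 0)) (P (i 1)) (P (i 2)),
        D3 (P (i 0)) p (P (i 2)) / D3 (P (i 0)) (P (i 1)) (P (i 2)),
        D3 (P (i 0)) (P (i 1)) p / D3 (P (i 0)) (P (i 1)) (P (i 2))] with hu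
  have hdet : IsUnit (mat3 P i).det := by
    rw [det_mat3]
    exact isUnit_iff_ne_zero.mpr h
  have hA : (mat3 P i).mulVec u = aff p := by
    have key : ∀ x y z : K, x * (D3 p (P (i 1)) (P (i 2)) / D3 (P (i 0)) (P (i 1)) (P (i 2))) +
        y * (D3 (P (i 0)) p (P (i 2)) / D3 (P (i 0)) (P (i 1)) (P (i 2))) +
        z * (D3 (P (i 0)) (P (i 1)) p / D3 (P (i 0)) (P (i 1)) (P (i 2))) =
        (x * D3 p (P (i 1)) (P (i 2)) + y * D3 (P (i 0)) p (P (i 2)) + z * D3 (P (i 0)) (P (i 1)) p) /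
          D3 (P (i 0)) (P (i 1)) (P (i 2)) := by
      intro x y z
      ring
    funext r
    rw [Matrix.mulVec, dotProduct, Fin.sum_univ_three]
    fin_cases r
    · simp only [hu, mat3, aff, Matrix.of_apply, Matrix.cons_val_zero, Matrix.cons_val_one, Matrix.cons_val,
        Fin.zero_eta, Fin.isValue]
      rw [key, div_eq_iff h]
      unfold D3
      ring
    · simp only [hu, mat3, aff, Matrix.of_apply, Matrix.cons_val_zero, Matrix.cons_val_one, Matrix.cons_val,
        Fin.mk_one, Fin.isValue]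
      rw [key, div_eq_iff h]
      unfold D3
      ring
    · simp only [hu, mat3, aff, Matrix.of_apply, Matrix.cons_val_zero, Matrix.cons_val_one, Matrix.cons_val,
        Fin.reduceFinMk, Fin.isValue]
      rw [key, div_eq_iff h]
      unfold D3
      ring
  rw [← hA, Matrix.mulVec_mulVec, Matrix.nonsing_inv_mul _ hdet, Matrix.one_mulVec]

theorem nonvan {K ι : Type} [Field K] [CharZero K] (x : ι → K) (hx : AlgebraicIndependent ℚ x)
    (F : MvPolynomial ι ℚ) (y : ι → ℚ) (h : MvPolynomial.eval y F ≠ 0) : aeval x F ≠ 0 := by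
  intro h0
  apply h
  have := hx.eq_zero_of_aeval_eq_zero F h0
  rw [this, map_zero]

theorem D3_ne {K : Type} [Field K] [CharZero K] {s : ℕ} (P : Fin s → Fin 2 → K)
    (hP : AlgebraicIndependent ℚ (fun ij : Fin s × Fin 2 => P ij.1 ij.2)) (a b c : Fin s)
    (hab : a ≠ b) (hac : a ≠ c) (hbc : b ≠ c) : D3 (P a) (P b) (P c) ≠ 0 := by
  have h := nonvan _ hP (D3 (fun l => X (a, l)) (fun l => X (b, l)) (fun l => X (c, l)))
    (fun ij => if ij = (b, 0) ∨ ij = (c, 1) then 1 else 0) (by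
      rw [map_D3]
      simp [D3, eval_X, hab, hac, hbc, hbc.symm])
  have e : (aeval (fun ij : Fin s × Fin 2 => P ij.1 ij.2))
      (D3 (fun l => X (a, l)) (fun l => X (b, l)) (fun l => X (c, l)) : MvPolynomial (Fin s × Fin 2) ℚ) =
      D3 (P a) (P b) (P c) := by
    rw [← AlgHom.coe_toRingHom, map_D3]
    simp only [AlgHom.coe_toRingHom, aeval_X]
  rwa [e] at h

/-- the sum of the products of the three determinants does not vanish -/
theorem sum_ne {K : Type} [Field K] [CharZero K] {s : ℕ} (P : Fin s → Fin 2 → K)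
    (hP : AlgebraicIndependent ℚ (fun ij : Fin s × Fin 2 => P ij.1 ij.2)) (a b c j : Fin s)
    (hab : a ≠ b) (hac : a ≠ c) (hbc : b ≠ c) (hja : j ≠ a) (hjb : j ≠ b) (hjc : j ≠ c) :
    D3 (P a) (P j) (P c) * D3 (P a) (P b) (P j) + D3 (P j) (P b) (P c) * D3 (P a) (P b) (P j) +
      D3 (P j) (P b) (P c) * D3 (P a) (P j) (P c) ≠ 0 := by
  let G : MvPolynomial (Fin s × Fin 2) ℚ :=
    D3 (fun l => X (a, l)) (fun l => X (j, l)) (fun l => X (c, l)) *
      D3 (fun l => X (a, l)) (fun l => X (b, l)) (fun l => X (j, l)) +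
    D3 (fun l => X (j, l)) (fun l => X (b, l)) (fun l => X (c, l)) *
      D3 (fun l => X (a, l)) (fun l => X (b, l)) (fun l => X (j, l)) +
    D3 (fun l => X (j, l)) (fun l => X (b, l)) (fun l => X (c, l)) *
      D3 (fun l => X (a, l)) (fun l => X (j, l)) (fun l => X (c, l))
  have h := nonvan _ hP G
    (fun ij => if ij = (b, 0) ∨ ij = (c, 1) then 1 else if ij.1 = j then 1 / 3 else 0) (by
      simp only [G, map_add, map_mul, map_D3]
      simp [D3, eval_X, hab, hac, hbc, hbc.symm, hjb, hjc, hja.symm, hjb.symm, hjc.symm]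
      norm_num)
  have e : (aeval (fun ij : Fin s × Fin 2 => P ij.1 ij.2)) G =
      D3 (P a) (P j) (P c) * D3 (P a) (P b) (P j) + D3 (P j) (P b) (P c) * D3 (P a) (P b) (P j) +
      D3 (P j) (P b) (P c) * D3 (P a) (P j) (P c) := by
    simp only [G]
    rw [← AlgHom.coe_toRingHom, map_add, map_add, map_mul, map_mul, map_mul]
    simp only [map_D3, AlgHom.coe_toRingHom, aeval_X]
  rwa [e] at h

theorem D3_mem {K : Type} [Field K] [CharZero K] (L : IntermediateField ℚ K) (p q r : Fin 2 → K)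
    (hp : ∀ l, p l ∈ L) (hq : ∀ l, q l ∈ L) (hr : ∀ l, r l ∈ L) : D3 p q r ∈ L := by
  unfold D3
  exact add_mem (sub_mem (mul_mem (hp _) (sub_mem (hq _) (hr _))) (mul_mem (hq _) (sub_mem (hp _) (hr _))))
    (mul_mem (hr _) (sub_mem (hp _) (hq _)))

theorem t_gen (h : P_TRD) : P_GEN := by
  intro K _ _ s P hP i hi
  have h01 : i 0 ≠ i 1 := fun h => absurd (hi h) (by decide)
  have h02 : i 0 ≠ i 2 := fun h => absurd (hi h) (by decide)
  have h12 : i 1 ≠ i 2 := fun h => absurd (hi h) (by decide)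
  have hΔ : D3 (P (i 0)) (P (i 1)) (P (i 2)) ≠ 0 := D3_ne P hP _ _ _ h01 h02 h12
  have hdet : (mat3 P i).det ≠ 0 := by rwa [det_mat3]
  have hunit : IsUnit (mat3 P i).det := isUnit_iff_ne_zero.mpr hdet
  have hu : ∀ j, (∀ k, j ≠ i k) → ∀ k, ((mat3 P i)⁻¹.mulVec (aff (P j))) k ≠ 0 := by
    intro j hj k
    rw [inv_mulVec P i hΔ]
    have e0 : D3 (P j) (P (i 1)) (P (i 2)) ≠ 0 := D3_ne P hP _ _ _ (hj 1) (hj 2) h12
    have e1 : D3 (P (i 0)) (P j) (P (i 2)) ≠ 0 := D3_ne P hP _ _ _ (hj 0).symm h02 (hj 2)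
    have e2 : D3 (P (i 0)) (P (i 1)) (P j) ≠ 0 := D3_ne P hP _ _ _ h01 (hj 0).symm (hj 1).symm
    fin_cases k
    · exact div_ne_zero e0 hΔ
    · exact div_ne_zero e1 hΔ
    · exact div_ne_zero e2 hΔ
  let v : Fin s → Fin 3 → K := fun j =>
    (mat3 P i).mulVec (fun k => ((mat3 P i)⁻¹.mulVec (aff (P j)) k)⁻¹)
  have hc : ∀ j, (∀ k, j ≠ i k) → v j 2 ≠ 0 := by
    intro j hj
    have e0 : D3 (P j) (P (i 1)) (P (i 2)) ≠ 0 := D3_ne P hP _ _ _ (hj 1) (hj 2) h12
    have e1 : D3 (P (i 0)) (P j) (P (i 2)) ≠ 0 := D3_ne P hP _ _ _ (hj 0).symm h02 (hj 2)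
    have e2 : D3 (P (i 0)) (P (i 1)) (P j) ≠ 0 := D3_ne P hP _ _ _ h01 (hj 0).symm (hj 1).symm
    have e3 := sum_ne P hP (i 0) (i 1) (i 2) j h01 h02 h12 (hj 0) (hj 1) (hj 2)
    have hv : v j 2 = D3 (P (i 0)) (P (i 1)) (P (i 2)) *
        (D3 (P (i 0)) (P j) (P (i 2)) * D3 (P (i 0)) (P (i 1)) (P j) +
          D3 (P j) (P (i 1)) (P (i 2)) * D3 (P (i 0)) (P (i 1)) (P j) +
          D3 (P j) (P (i 1)) (P (i 2)) * D3 (P (i 0)) (P j) (P (i 2))) /
        (D3 (P j) (P (i 1)) (P (i 2)) * D3 (P (i 0)) (P j) (P (i 2)) * D3 (P (i 0)) (P (i 1)) (P j)) := by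
      simp only [v]
      rw [inv_mulVec P i hΔ, Matrix.mulVec, dotProduct, Fin.sum_univ_three]
      simp only [mat3, aff, Matrix.of_apply, Matrix.cons_val_zero, Matrix.cons_val_one, Matrix.cons_val]
      field_simp
    rw [hv]
    exact div_ne_zero (mul_ne_zero hΔ e3) (mul_ne_zero (mul_ne_zero e0 e1) e2)
  classical
  let P' : Fin s → Fin 2 → K := fun j =>
    if ∃ k, j = i k then P j else ![v j 0 / v j 2, v j 1 / v j 2]
  have hP'1 : ∀ k, P' (i k) = P (i k) := by
    intro k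
    simp only [P']
    rw [if_pos ⟨k, rfl⟩]
  have hP'2 : ∀ j, (∀ k, j ≠ i k) → v j = v j 2 • aff (P' j) := by
    intro j hj
    have hne := hc j hj
    have hnot : ¬ ∃ k, j = i k := by
      rintro ⟨k, hk⟩
      exact hj k hk
    funext r
    simp only [P']
    rw [if_neg hnot]
    fin_cases r
    · simp only [aff, Pi.smul_apply, smul_eq_mul, Fin.zero_eta, Matrix.cons_val_zero]
      field_simp
    · simp only [aff, Pi.smul_apply, smul_eq_mul, Fin.mk_one, Matrix.cons_val_one, Matrix.cons_val_zero]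
      field_simp
    · simp only [aff, Pi.smul_apply, smul_eq_mul, Fin.reduceFinMk, Matrix.cons_val, mul_one]
  refine ⟨hdet, hu, P', ?_, hP'1, ?_⟩
  · -- algebraic independence
    set L : IntermediateField ℚ K :=
      IntermediateField.adjoin ℚ (Set.range (fun ij : Fin s × Fin 2 => P' ij.1 ij.2)) with hL
    have hmem' : ∀ j l, P' j l ∈ L := by
      intro j l
      exact IntermediateField.subset_adjoin _ _ ⟨(j, l), rfl⟩
    have hmem : ∀ k l, P (i k) l ∈ L := by
      intro k l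
      rw [← hP'1]
      exact hmem' _ _
    have hAmem : ∀ r c, mat3 P i r c ∈ L := by
      intro r c
      unfold mat3 aff
      rw [Matrix.of_apply]
      fin_cases r
      · exact hmem c 0
      · exact hmem c 1
      · exact one_mem L
    apply h K (Fin s × Fin 2) (fun ij => P ij.1 ij.2) (fun ij => P' ij.1 ij.2) hP
    rintro ⟨j, l⟩
    rw [← hL]
    by_cases hj : ∃ k, j = i k
    · obtain ⟨k, rfl⟩ := hj
      exact hmem k l
    · have hj' : ∀ k, j ≠ i k := fun k hk => hj ⟨k, hk⟩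
      have hne := hc j hj'
      -- w = A⁻¹ aff (P' j)
      let w : Fin 3 → K := (mat3 P i)⁻¹.mulVec (aff (P' j))
      have hwmem : ∀ k, w k ∈ L := by
        intro k
        simp only [w]
        rw [inv_mulVec P i hΔ]
        have hd := D3_mem L _ _ _ (hmem 0) (hmem 1) (hmem 2)
        fin_cases k
        · exact div_mem (D3_mem L _ _ _ (hmem' j) (hmem 1) (hmem 2)) hd
        · exact div_mem (D3_mem L _ _ _ (hmem 0) (hmem' j) (hmem 2)) hd
        · exact div_mem (D3_mem L _ _ _ (hmem 0) (hmem 1) (hmem' j)) hd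
      have hw : ∀ k, ((mat3 P i)⁻¹.mulVec (aff (P j)) k)⁻¹ = v j 2 * w k := by
        have e1 : (mat3 P i)⁻¹.mulVec (v j) = fun k => ((mat3 P i)⁻¹.mulVec (aff (P j)) k)⁻¹ := by
          simp only [v]
          rw [Matrix.mulVec_mulVec, Matrix.nonsing_inv_mul _ hunit, Matrix.one_mulVec]
        have e2 : (mat3 P i)⁻¹.mulVec (v j) = v j 2 • w := by
          conv_lhs => rw [hP'2 j hj']
          rw [Matrix.mulVec_smul]
        intro k
        have := congrFun (e1.symm.trans e2) k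
        simpa using this
      have haff : ∀ r, aff (P j) r = (v j 2)⁻¹ * ((mat3 P i).mulVec (fun k => (w k)⁻¹)) r := by
        intro r
        have e3 : aff (P j) = (mat3 P i).mulVec ((mat3 P i)⁻¹.mulVec (aff (P j))) := by
          rw [Matrix.mulVec_mulVec, Matrix.mul_nonsing_inv _ hunit, Matrix.one_mulVec]
        have e4 : (mat3 P i)⁻¹.mulVec (aff (P j)) = (v j 2)⁻¹ • (fun k => (w k)⁻¹) := by
          funext k
          have := hw k
          rw [inv_eq_iff_eq_inv] at this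
          rw [this, mul_inv]
          rfl
        rw [e3, e4, Matrix.mulVec_smul]
        rfl
      have hmv : ∀ r, ((mat3 P i).mulVec (fun k => (w k)⁻¹)) r ∈ L := by
        intro r
        rw [Matrix.mulVec, dotProduct]
        exact sum_mem (fun c _ => mul_mem (hAmem r c) (inv_mem (hwmem c)))
      have hcL : v j 2 ∈ L := by
        have h2 := haff 2
        have e5 : aff (P j) 2 = 1 := rfl
        rw [e5] at h2
        have : v j 2 = ((mat3 P i).mulVec (fun k => (w k)⁻¹)) 2 := by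
          rw [eq_comm, inv_mul_eq_iff_eq_mul₀ hne, mul_one] at h2
          exact h2.symm
        rw [this]
        exact hmv 2
      fin_cases l
      · have := haff 0
        have e6 : aff (P j) 0 = P j 0 := rfl
        rw [e6] at this
        show P j 0 ∈ L
        rw [this]
        exact mul_mem (inv_mem hcL) (hmv 0)
      · have := haff 1
        have e6 : aff (P j) 1 = P j 1 := rfl
        rw [e6] at this
        show P j 1 ∈ L
        rw [this]
        exact mul_mem (inv_mem hcL) (hmv 1)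
  · intro j hj
    exact ⟨v j 2, hc j hj, hP'2 j hj⟩

end Pool.Agent.W797.CR
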